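import Mathlib

/-!
# MP_3243b0_gt : affine surfaces made of flat cylinders of one direction (definitions)
-/

namespace Pool.Agent.FCY

/-- Gluing data of closed flat cylinders of one direction. `V` is the set of cylinders, `E` the
set of gluing pieces. In its own affine chart the cylinder `i` has circumference `1`. The piece
`e` is the arc from `p e` to `p e + a e` on the top circle of the cylinder `src e`; it is glued,
by an affine map, to the arc from `q e` to `q e + b e` on the bottom circle of the cylinder
`tgt e`. -/
structure Gluing (V E : Type) where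
  /-- the cylinder below the piece -/
  src : E → V
  /-- the cylinder above the piece -/
  tgt : E → V
  /-- left end on the top circle of the cylinder below -/
  p : E → ℝ
  /-- length on the top circle of the cylinder below -/
  a : E → ℝ
  /-- left end on the bottom circle of the cylinder above -/
  q : E → ℝ
  /-- length on the bottom circle of the cylinder above -/
  b : E → ℝ

variable {V E : Type}

/-- The arcs `[l e, l e + w e]`, `f e = i`, tile the circle of circumference `1`: their lengths
are positive with sum `1` and their interiors are disjoint modulo `1`. -/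
def Tiles [Fintype E] [DecidableEq V] (f : E → V) (l w : E → ℝ) (i : V) : Prop :=
  (∀ e, f e = i → 0 < w e) ∧ (∑ e with f e = i, w e) = 1 ∧
    ∀ e e', f e = i → f e' = i → e ≠ e' → ∀ N : ℤ, ∀ x ∈ Set.Ioo (l e) (l e + w e),
      x + N ∉ Set.Ioo (l e') (l e' + w e')

namespace Gluing

variable (G : Gluing V E)

/-- The pieces tile the top circle and the bottom circle of every cylinder. -/
def Closed [Fintype E] [DecidableEq V] : Prop :=
  ∀ i, Tiles G.src G.p G.a i ∧ Tiles G.tgt G.q G.b i

/-- The glued surface is connected. -/
def Connected : Prop :=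
  ∀ S : Set V, S.Nonempty → (∀ e, G.src e ∈ S ↔ G.tgt e ∈ S) → S = Set.univ

/-- The surface is a translation surface: for suitable circumferences `c i` of the cylinders all
gluing maps preserve lengths. -/
def IsTranslation : Prop :=
  ∃ c : V → ℝ, (∀ i, 0 < c i) ∧ ∀ e, c (G.src e) * G.a e = c (G.tgt e) * G.b e

/-- The straight line of direction `(τ, 1)` that enters a cylinder of modulus `μ` at the point
`x` of its bottom circle leaves it through the interior of the piece `e` and enters the next
cylinder at the point `x'`. -/
def Crosses (τ μ x : ℝ) (e : E) (x' : ℝ) : Prop :=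
  ∃ N : ℤ, G.p e < x + τ * μ + N ∧ x + τ * μ + N < G.p e + G.a e ∧
    x' = G.q e + G.b e / G.a e * (x + τ * μ + N - G.p e)

/-- Let the cylinder `i` have modulus (height / circumference) `m i`. There is a closed regular
geodesic of some direction `(τ, 1)`, with `n ≥ 1` crossings: it passes the cylinders
`src (e k)`, entering at `x k` and leaving through the interior of `e k`; it is simple (different
passages of one cylinder start at different points of the bottom circle), and the product of the
scaling factors `b / a` of its crossings is not `1`, so that it is hyperbolic. -/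
def HasHyperbolic (m : V → ℝ) : Prop :=
  ∃ (τ : ℝ) (n : ℕ) (e : ℕ → E) (x : ℕ → ℝ), 0 < n ∧
    (∀ k, e (k + n) = e k ∧ x (k + n) = x k) ∧
    (∀ k, G.tgt (e k) = G.src (e (k + 1))) ∧
    (∀ k, G.Crosses τ (m (G.src (e k))) (x k) (e k) (x (k + 1))) ∧
    (∀ k < n, ∀ l < n, k ≠ l → G.src (e k) = G.src (e l) → ∀ N : ℤ, x k ≠ x l + N) ∧
    (∏ k ∈ Finset.range n, G.b (e k) / G.a (e k)) ≠ 1

/-- `e 0, ..., e (n - 1)` is a simple directed cycle of pieces (it passes no cylinder twice)
whose scaling factors do not multiply to `1`. -/
def IsCycle (n : ℕ) (e : ℕ → E) : Prop :=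
  0 < n ∧ (∀ k, e (k + n) = e k) ∧ (∀ k, G.tgt (e k) = G.src (e (k + 1))) ∧
    (∀ k < n, ∀ l < n, k ≠ l → G.src (e k) ≠ G.src (e l)) ∧
    (∏ k ∈ Finset.range n, G.b (e k) / G.a (e k)) ≠ 1

end Gluing

/-- `m` satisfies no relation `∑ c i * m i = 0` with integers `c i`, not all `0`, of absolute
value at most `N` and equal to `0` outside `S`. -/
def NoRelation [Fintype V] (N : ℕ) (S : Set V) (m : V → ℝ) : Prop :=
  ∀ c : V → ℤ, c ≠ 0 → (∀ i, c i ≠ 0 → i ∈ S) → (∀ i, |c i| ≤ N) → ∑ i, c i * m i ≠ 0

end Pool.Agent.FCY
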