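import Pool.Agent.FCY.Defs

/-!
# Kronecker's theorem with finitely many relations
-/

open Filter Topology

namespace Pool.Agent.FCY

/-- `f` has mean value `L` on `[0, ∞)`. -/
def MeanIs (f : ℝ → ℂ) (L : ℂ) : Prop :=
  Tendsto (fun T : ℝ => (T : ℂ)⁻¹ * ∫ t in (0:ℝ)..T, f t) atTop (𝓝 L)

lemma mean_exp {c : ℝ} (hc : c ≠ 0) :
    MeanIs (fun t => Complex.exp (2 * Real.pi * Complex.I * (c * t))) 0 := by
  unfold MeanIs
  have hz : (2 * Real.pi * Complex.I * c : ℂ) ≠ 0 := by
    have := Real.pi_ne_zero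
    simp [hc, this]
  have h1 : ∀ T : ℝ, ∫ t in (0:ℝ)..T, Complex.exp (2 * Real.pi * Complex.I * (c * t)) =
      (Complex.exp (2 * Real.pi * Complex.I * c * T) - 1) / (2 * Real.pi * Complex.I * c) := by
    intro T
    have := integral_exp_mul_complex (a := 0) (b := T) hz
    simp only [mul_assoc] at this ⊢
    rw [this]
    simp
  simp_rw [h1]
  rw [tendsto_zero_iff_norm_tendsto_zero]
  have h2 : Tendsto (fun T : ℝ => T⁻¹ * (2 / ‖(2 * Real.pi * Complex.I * c : ℂ)‖)) atTop (𝓝 0) := by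
    simpa using tendsto_inv_atTop_zero.mul_const (2 / ‖(2 * Real.pi * Complex.I * c : ℂ)‖)
  refine squeeze_zero' (Eventually.of_forall fun T => norm_nonneg _) ?_ h2
  filter_upwards [eventually_gt_atTop (0:ℝ)] with T hT
  rw [norm_mul, norm_div, norm_inv, Complex.norm_real, Real.norm_of_nonneg hT.le]
  gcongr
  refine (norm_sub_le _ _).trans ?_
  have : ‖Complex.exp (2 * Real.pi * Complex.I * c * T)‖ = 1 := by
    have e : (2 * Real.pi * Complex.I * c * T : ℂ) =
        ((2 * Real.pi * c * T : ℝ) : ℂ) * Complex.I := by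
      push_cast; ring
    rw [e, Complex.norm_exp_ofReal_mul_I]
  rw [this]
  norm_num

lemma mean_const (z : ℂ) : MeanIs (fun _ => z) z := by
  unfold MeanIs
  refine tendsto_const_nhds.congr' ?_
  filter_upwards [eventually_gt_atTop (0:ℝ)] with T hT
  have : (T : ℂ) ≠ 0 := by exact_mod_cast hT.ne'
  simp [this]

lemma MeanIs.const_mul {f : ℝ → ℂ} {L : ℂ} (h : MeanIs f L) (z : ℂ) :
    MeanIs (fun t => z * f t) (z * L) := by
  unfold MeanIs at *
  have := h.const_mul z
  refine this.congr fun T => ?_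
  rw [intervalIntegral.integral_const_mul]
  ring

lemma mean_sum {ι : Type*} (s : Finset ι) (f : ι → ℝ → ℂ) (L : ι → ℂ)
    (hc : ∀ i ∈ s, Continuous (f i)) (h : ∀ i ∈ s, MeanIs (f i) (L i)) :
    MeanIs (fun t => ∑ i ∈ s, f i t) (∑ i ∈ s, L i) := by
  unfold MeanIs at *
  have := tendsto_finsetSum s h
  refine this.congr fun T => ?_
  rw [intervalIntegral.integral_finsetSum fun i hi => (hc i hi).intervalIntegrable _ _,
    Finset.mul_sum]

/-- `((1 + cos 2πθ)/2)^ν` as a trigonometric polynomial. -/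
lemma cos_expand (θ : ℝ) (ν : ℕ) : ((((1 + Real.cos (2 * Real.pi * θ)) / 2) ^ ν : ℝ) : ℂ) =
    ∑ j ∈ Finset.range (2 * ν + 1), ((2 * ν).choose j / 4 ^ ν : ℂ) *
      Complex.exp (2 * Real.pi * Complex.I * (((j : ℤ) - ν : ℤ) * θ)) := by
  set z : ℂ := Complex.exp (2 * Real.pi * Complex.I * θ) with hz
  have hz0 : z ≠ 0 := Complex.exp_ne_zero _
  have h1 : (((1 + Real.cos (2 * Real.pi * θ)) / 2 : ℝ) : ℂ) = z⁻¹ * (1 + z) ^ 2 / 4 := by
    push_cast
    rw [Complex.cos]
    have e1 : Complex.exp (2 * Real.pi * θ * Complex.I) = z := by rw [hz]; congr 1; ring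
    have e2 : Complex.exp (-(2 * Real.pi * θ) * Complex.I) = z⁻¹ := by
      rw [hz, ← Complex.exp_neg]; congr 1; ring
    rw [e1, e2]
    field_simp
    ring
  rw [Complex.ofReal_pow, h1]
  have h2 : (z⁻¹ * (1 + z) ^ 2 / 4) ^ ν = z⁻¹ ^ ν * (z + 1) ^ (2 * ν) / 4 ^ ν := by
    rw [div_pow, mul_pow, ← pow_mul, add_comm 1 z]
  rw [h2, add_pow, Finset.mul_sum, Finset.sum_div]
  refine Finset.sum_congr rfl fun j _ => ?_
  have h3 : Complex.exp (2 * Real.pi * Complex.I * (((j : ℤ) - ν : ℤ) * θ)) =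
      z⁻¹ ^ ν * z ^ j := by
    have : (2 * Real.pi * Complex.I * (((j : ℤ) - ν : ℤ) * θ) : ℂ) =
        (((j : ℤ) - ν : ℤ) : ℂ) * (2 * Real.pi * Complex.I * θ) := by ring
    rw [this, Complex.exp_int_mul, ← hz, zpow_sub₀ hz0, zpow_natCast, zpow_natCast, inv_pow]
    field_simp
  rw [h3]
  simp only [one_pow, mul_one]
  ring

variable {V : Type} [Fintype V]

/-- no relation at all (whole index set) -/
def NoRel (N : ℕ) (m : V → ℝ) : Prop :=
  ∀ c : V → ℤ, c ≠ 0 → (∀ i, |c i| ≤ N) → ∑ i, c i * m i ≠ 0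

/-- Mean value of `F(ν) = ∏ ((1 + cos 2π(τ m_i - x_i))/2)^(ν_i)`. -/
lemma mean_prod {N : ℕ} {m : V → ℝ} (hm : NoRel N m) (x : V → ℝ) (ν : V → ℕ)
    (hν : ∀ i, ν i ≤ N) :
    MeanIs (fun τ => ((∏ i, ((1 + Real.cos (2 * Real.pi * (τ * m i - x i))) / 2) ^ ν i : ℝ) : ℂ))
      ((∏ i, ((2 * ν i).choose (ν i) / 4 ^ ν i : ℝ) : ℝ) : ℂ) := by
  classical
  have h1 : (fun τ : ℝ =>
      ((∏ i, ((1 + Real.cos (2 * Real.pi * (τ * m i - x i))) / 2) ^ ν i : ℝ) : ℂ)) =
      fun τ : ℝ => ∑ J ∈ Fintype.piFinset fun i => Finset.range (2 * ν i + 1),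
        ((∏ i, ((2 * ν i).choose (J i) / 4 ^ ν i : ℂ) *
          Complex.exp (2 * Real.pi * Complex.I * (((J i : ℤ) - ν i : ℤ) * (-x i)))) *
        Complex.exp (2 * Real.pi * Complex.I *
          (((∑ i, ((J i : ℤ) - ν i : ℤ) * m i : ℝ)) * τ))) := by
    funext τ
    rw [Complex.ofReal_prod]
    simp_rw [cos_expand]
    rw [Finset.prod_univ_sum]
    refine Finset.sum_congr rfl fun J _ => ?_
    have e1 : Complex.exp (2 * Real.pi * Complex.I *
          (((∑ i, ((J i : ℤ) - ν i : ℤ) * m i : ℝ)) * τ)) =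
        ∏ i, Complex.exp (2 * Real.pi * Complex.I * ((((J i : ℤ) - ν i : ℤ) * m i) * τ)) := by
      rw [← Complex.exp_sum]
      congr 1
      push_cast
      rw [Finset.sum_mul, Finset.mul_sum]
    rw [e1, ← Finset.prod_mul_distrib]
    refine Finset.prod_congr rfl fun i _ => ?_
    rw [mul_assoc (_ / _ : ℂ), ← Complex.exp_add]
    congr 2
    push_cast
    ring
  rw [h1]
  set A : (V → ℕ) → ℂ := fun J => ∏ i, ((2 * ν i).choose (J i) / 4 ^ ν i : ℂ) *
          Complex.exp (2 * Real.pi * Complex.I * (((J i : ℤ) - ν i : ℤ) * (-x i))) with hA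
  have h2 : MeanIs (fun τ => ∑ J ∈ Fintype.piFinset fun i => Finset.range (2 * ν i + 1),
        (A J * Complex.exp (2 * Real.pi * Complex.I *
          (((∑ i, ((J i : ℤ) - ν i : ℤ) * m i : ℝ)) * τ))))
      (∑ J ∈ Fintype.piFinset fun i => Finset.range (2 * ν i + 1), if J = ν then A J else 0) := by
    refine mean_sum _ _ _ (fun J _ => by fun_prop) fun J hJ => ?_
    split_ifs with h
    · subst h
      simpa using mean_const (A J)
    · have hne : (∑ i, ((J i : ℤ) - ν i : ℤ) * m i : ℝ) ≠ 0 := by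
        have := hm (fun i => (J i : ℤ) - ν i) ?_ ?_
        · exact this
        · intro h0
          apply h
          funext i
          have := congrFun h0 i
          simp only [Pi.zero_apply] at this
          omega
        · intro i
          have h3 := Fintype.mem_piFinset.mp hJ i
          have h4 := hν i
          rw [Finset.mem_range] at h3
          rw [abs_le]
          constructor <;> omega
      have := (mean_exp hne).const_mul (A J)
      simpa using this
  convert h2 using 1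
  rw [Finset.sum_ite_eq' _ ν A, if_pos]
  · rw [hA]
    push_cast
    refine Finset.prod_congr rfl fun i _ => ?_
    simp
  · rw [Fintype.mem_piFinset]
    intro i
    rw [Finset.mem_range]
    omega

/-- If a real function with mean `L` is nonnegative then `L` is nonnegative. -/
lemma mean_nonneg {f : ℝ → ℝ} {L : ℝ} (h : MeanIs (fun t => (f t : ℂ)) L) (hf : ∀ t, 0 ≤ f t) :
    0 ≤ L := by
  unfold MeanIs at h
  have h1 : Tendsto (fun T : ℝ => T⁻¹ * ∫ t in (0:ℝ)..T, f t) atTop (𝓝 L) := by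
    have := (Complex.continuous_re.tendsto _).comp h
    rw [Complex.ofReal_re] at this
    refine this.congr fun T => ?_
    simp only [Function.comp]
    rw [intervalIntegral.integral_ofReal, ← Complex.ofReal_inv, ← Complex.ofReal_mul,
      Complex.ofReal_re]
  refine ge_of_tendsto h1 ?_
  filter_upwards [eventually_gt_atTop (0:ℝ)] with T hT
  exact mul_nonneg (by positivity) (intervalIntegral.integral_nonneg hT.le fun t _ => hf t)

lemma cos_le_of_far {θ ε : ℝ} (hε : 0 < ε) (h : ∀ k : ℤ, ε ≤ |θ - k|) :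
    Real.cos (2 * Real.pi * θ) ≤ Real.cos (2 * Real.pi * ε) := by
  have h1 := h (round θ)
  have h2 := abs_sub_round θ
  have h3 : Real.cos (2 * Real.pi * θ) = Real.cos (2 * Real.pi * |θ - round θ|) := by
    have : Real.cos (2 * Real.pi * θ) = Real.cos (2 * Real.pi * (θ - round θ)) := by
      have e : 2 * Real.pi * (θ - round θ) = 2 * Real.pi * θ - round θ * (2 * Real.pi) := by ring
      rw [e, Real.cos_sub_int_mul_two_pi]
    rw [this, ← Real.cos_abs (2 * Real.pi * (θ - round θ)), abs_mul, abs_of_pos Real.two_pi_pos]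
  rw [h3]
  apply Real.cos_le_cos_of_nonneg_of_le_pi
  · have := Real.pi_pos; positivity
  · have := Real.pi_pos
    nlinarith
  · have := Real.pi_pos
    nlinarith

/-- Kronecker's theorem for flows, with only finitely many relations excluded. -/
theorem kron (V : Type) [Fintype V] {ε : ℝ} (hε : 0 < ε) :
    ∃ N : ℕ, ∀ m x : V → ℝ, NoRel N m → ∃ τ : ℝ, ∀ i, ∃ k : ℤ, |τ * m i - x i - k| < ε := by
  classical
  rcases isEmpty_or_nonempty V with hV | hV
  · exact ⟨0, fun m x _ => ⟨0, fun i => (hV.false i).elim⟩⟩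
  -- reduce to small ε
  wlog hε2 : ε < 1 / 4 generalizing ε
  · obtain ⟨N, hN⟩ := this (ε := 1 / 5) (by norm_num) (by norm_num)
    refine ⟨N, fun m x hm => ?_⟩
    obtain ⟨τ, hτ⟩ := hN m x hm
    refine ⟨τ, fun i => ?_⟩
    obtain ⟨k, hk⟩ := hτ i
    exact ⟨k, hk.trans (by linarith [not_lt.mp hε2])⟩
  set δ : ℝ := (1 + Real.cos (2 * Real.pi * ε)) / 2 with hδ
  have hδ1 : δ < 1 := by
    have h1 : Real.cos (2 * Real.pi * ε) < 1 := by
      have := Real.cos_lt_cos_of_nonneg_of_le_pi (x := 0) (y := 2 * Real.pi * ε) le_rfl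
        (by nlinarith [Real.pi_pos]) (by positivity)
      simpa using this
    rw [hδ]; linarith
  have hδ0 : 0 ≤ δ := by
    rw [hδ]; linarith [Real.neg_one_le_cos (2 * Real.pi * ε)]
  have hlim : Tendsto (fun n : ℕ => (n : ℝ) * δ ^ n) atTop (𝓝 0) :=
    tendsto_self_mul_const_pow_of_lt_one hδ0 hδ1
  set K : ℝ := (Fintype.card V : ℝ) with hK
  have hK0 : 0 < K := by rw [hK]; exact_mod_cast Fintype.card_pos
  have hK1 : (0:ℝ) < 1 / (2 * K) := by positivity
  obtain ⟨n, hn1, hn2⟩ := ((hlim.eventually (gt_mem_nhds hK1)).and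
    (eventually_ge_atTop 1)).exists
  refine ⟨n, fun m x hm => ?_⟩
  by_contra hcon
  push Not at hcon
  set c : ℝ := ((2 * n).choose n : ℝ) / 4 ^ n with hc
  have hc1 : 1 / (2 * (n : ℝ)) ≤ c := by
    have h := Nat.four_pow_le_two_mul_self_mul_centralBinom n (by omega)
    rw [Nat.centralBinom] at h
    have h' : (4:ℝ) ^ n ≤ 2 * n * ((2 * n).choose n : ℝ) := by exact_mod_cast h
    have hn0 : (0:ℝ) < n := by exact_mod_cast hn2
    rw [hc, div_le_div_iff₀ (by positivity) (by positivity)]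
    linarith
  have hc0 : 0 < c := lt_of_lt_of_le (by have : (0:ℝ) < n := by exact_mod_cast hn2
                                         positivity) hc1
  set F : ℝ → V → ℝ := fun τ i => ((1 + Real.cos (2 * Real.pi * (τ * m i - x i))) / 2) ^ n with hF
  have hF0 : ∀ τ i, 0 ≤ F τ i := fun τ i => by
    rw [hF]
    exact pow_nonneg (by linarith [Real.neg_one_le_cos (2 * Real.pi * (τ * m i - x i))]) _
  -- the pointwise inequality
  have hpt : ∀ τ, 0 ≤ δ ^ n * ∑ i, ∏ j ∈ Finset.univ.erase i, F τ j - ∏ i, F τ i := by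
    intro τ
    obtain ⟨i, hi⟩ := hcon τ
    have h1 : F τ i ≤ δ ^ n := by
      rw [hF]
      apply pow_le_pow_left₀
      · linarith [Real.neg_one_le_cos (2 * Real.pi * (τ * m i - x i))]
      · rw [hδ]
        linarith [cos_le_of_far hε hi]
    have h2 : ∏ i, F τ i = F τ i * ∏ j ∈ Finset.univ.erase i, F τ j :=
      (Finset.mul_prod_erase _ _ (Finset.mem_univ i)).symm
    have h3 : ∏ j ∈ Finset.univ.erase i, F τ j ≤ ∑ i, ∏ j ∈ Finset.univ.erase i, F τ j :=
      Finset.single_le_sum (f := fun i => ∏ j ∈ Finset.univ.erase i, F τ j)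
        (fun i _ => Finset.prod_nonneg fun j _ => hF0 τ j) (Finset.mem_univ i)
    have h4 : 0 ≤ ∏ j ∈ Finset.univ.erase i, F τ j := Finset.prod_nonneg fun j _ => hF0 τ j
    have h5 : F τ i * ∏ j ∈ Finset.univ.erase i, F τ j ≤
        δ ^ n * ∑ i, ∏ j ∈ Finset.univ.erase i, F τ j :=
      mul_le_mul h1 h3 h4 (by positivity)
    rw [h2]; linarith
  -- its mean value
  have hP : MeanIs (fun τ => ((∏ i, F τ i : ℝ) : ℂ)) ((c ^ Fintype.card V : ℝ) : ℂ) := by
    have := mean_prod hm x (fun _ => n) (fun _ => le_rfl)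
    rw [Finset.prod_const, Finset.card_univ, ← hc] at this
    exact this
  have hE : ∀ i, MeanIs (fun τ => ((∏ j ∈ Finset.univ.erase i, F τ j : ℝ) : ℂ))
      ((c ^ (Fintype.card V - 1) : ℝ) : ℂ) := by
    intro i
    have := mean_prod hm x (fun j => if j = i then 0 else n)
      (fun j => by split_ifs <;> omega)
    convert this using 1
    · funext τ
      congr 1
      rw [← Finset.mul_prod_erase _ _ (Finset.mem_univ i)]
      simp only [if_pos, pow_zero, one_mul]
      refine Finset.prod_congr rfl fun j hj => ?_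
      rw [if_neg (Finset.ne_of_mem_erase hj)]
    · congr 1
      rw [← Finset.mul_prod_erase _ _ (Finset.mem_univ i)]
      simp only [if_pos, mul_zero, Nat.choose_self, Nat.cast_one, pow_zero, div_one, one_mul]
      rw [Finset.prod_congr rfl (g := fun _ => c) fun j hj => by
        rw [if_neg (Finset.ne_of_mem_erase hj)], Finset.prod_const, Finset.card_erase_of_mem
        (Finset.mem_univ i), Finset.card_univ]
  have hS : MeanIs (fun τ => ((δ ^ n * ∑ i, ∏ j ∈ Finset.univ.erase i, F τ j - ∏ i, F τ i : ℝ) : ℂ))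
      ((δ ^ n * (K * c ^ (Fintype.card V - 1)) - c ^ Fintype.card V : ℝ) : ℂ) := by
    have h1 := (mean_sum Finset.univ (fun i τ => ((∏ j ∈ Finset.univ.erase i, F τ j : ℝ) : ℂ)) _
      (fun i _ => by rw [hF]; fun_prop) (fun i _ => hE i)).const_mul ((δ ^ n : ℝ) : ℂ)
    have h2 := hP.const_mul (-1)
    have h3 := mean_sum (Finset.univ : Finset Bool) (fun b τ => if b then
        ((δ ^ n : ℝ) : ℂ) * ∑ i, ((∏ j ∈ Finset.univ.erase i, F τ j : ℝ) : ℂ)
        else -1 * ((∏ i, F τ i : ℝ) : ℂ)) (fun b => if b then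
        ((δ ^ n : ℝ) : ℂ) * ∑ _i : V, ((c ^ (Fintype.card V - 1) : ℝ) : ℂ)
        else -1 * ((c ^ Fintype.card V : ℝ) : ℂ)) ?_ ?_
    · convert h3 using 1
      · funext τ
        simp only [Fintype.univ_bool, Finset.mem_singleton, Bool.true_eq_false, not_false_eq_true,
          Finset.sum_insert, if_true, Finset.sum_singleton, Bool.false_eq_true, if_false]
        push_cast
        ring
      · simp only [Fintype.univ_bool, Finset.mem_singleton, Bool.true_eq_false, not_false_eq_true,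
          Finset.sum_insert, if_true, Finset.sum_singleton, Bool.false_eq_true, if_false,
          Finset.sum_const, Finset.card_univ, nsmul_eq_mul]
        rw [hK]
        push_cast
        ring
    · intro b _
      cases b <;> simp only [if_true, Bool.false_eq_true, if_false, hF] <;> fun_prop
    · intro b _
      cases b
      · simpa using h2
      · simpa using h1
  have h0 := mean_nonneg hS hpt
  have hcard : Fintype.card V = (Fintype.card V - 1) + 1 := by
    have := Fintype.card_pos (α := V); omega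
  have h1 : c ^ Fintype.card V = c ^ (Fintype.card V - 1) * c := by
    conv_lhs => rw [hcard, pow_succ]
  have h2 : 0 ≤ c ^ (Fintype.card V - 1) * (δ ^ n * K - c) := by
    rw [h1] at h0; linarith
  have h3 : c ≤ δ ^ n * K := by
    by_contra h
    push Not at h
    have : c ^ (Fintype.card V - 1) * (δ ^ n * K - c) < 0 :=
      mul_neg_of_pos_of_neg (by positivity) (by linarith)
    linarith
  have hn0 : (0:ℝ) < n := by exact_mod_cast hn2
  have h4 : 1 / (2 * (n : ℝ)) ≤ δ ^ n * K := hc1.trans h3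
  rw [div_le_iff₀ (by positivity)] at h4
  rw [lt_div_iff₀ (by positivity)] at hn1
  linarith

end Pool.Agent.FCY
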