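import Pool.Agent.FCY.Defs

/-!
# A simple directed cycle of pieces whose scaling factors do not multiply to `1`
-/

namespace Pool.Agent.FCY

open Finset

variable {V E : Type} (G : Gluing V E)

namespace Gluing

/-- scaling factor of a piece -/
noncomputable def s (e : E) : ℝ := G.b e / G.a e

/-- There is a walk of `n` pieces from `i` to `j` with product of scaling factors `r`. -/
def W : ℕ → V → V → ℝ → Prop
  | 0, i, j, r => i = j ∧ r = 1
  | n + 1, i, j, r => ∃ e, G.src e = i ∧ ∃ r', W n (G.tgt e) j r' ∧ r = G.s e * r'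

variable {G}

lemma W_trans {n m : ℕ} {i j k : V} {r t : ℝ} (h : G.W n i j r) (h' : G.W m j k t) :
    G.W (n + m) i k (r * t) := by
  induction n generalizing i r with
  | zero =>
    obtain ⟨rfl, rfl⟩ := h
    simpa using h'
  | succ n ih =>
    obtain ⟨e, he, r', hr', rfl⟩ := h
    have := ih hr'
    rw [show n + 1 + m = (n + m) + 1 by ring]
    exact ⟨e, he, r' * t, this, by ring⟩

lemma W_one (e : E) : G.W 1 (G.src e) (G.tgt e) (G.s e) :=
  ⟨e, rfl, 1, ⟨rfl, rfl⟩, by ring⟩

lemma W_fun {e : ℕ → E} {v : ℕ → V} {n : ℕ}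
    (h : ∀ k < n, G.src (e k) = v k ∧ G.tgt (e k) = v (k + 1)) (d k : ℕ) (hk : k + d ≤ n) :
    G.W d (v k) (v (k + d)) (∏ j ∈ range d, G.s (e (k + j))) := by
  induction d generalizing k with
  | zero => simp [W]
  | succ d ih =>
    refine ⟨e k, (h k (by omega)).1, ∏ j ∈ range d, G.s (e (k + 1 + j)), ?_, ?_⟩
    · have := ih (k + 1) (by omega)
      rw [(h k (by omega)).2]
      rwa [show k + (d + 1) = k + 1 + d by ring]
    · rw [prod_range_succ', mul_comm, add_zero]
      congr 1
      exact prod_congr rfl fun j _ => by rw [show k + (j + 1) = k + 1 + j by ring]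

lemma exists_fun [Nonempty E] {n : ℕ} {i j : V} {r : ℝ} (h : G.W n i j r) :
    ∃ (e : ℕ → E) (v : ℕ → V), v 0 = i ∧ v n = j ∧
      (∀ k < n, G.src (e k) = v k ∧ G.tgt (e k) = v (k + 1)) ∧ r = ∏ k ∈ range n, G.s (e k) := by
  induction n generalizing i r with
  | zero =>
    obtain ⟨rfl, rfl⟩ := h
    exact ⟨fun _ => Classical.arbitrary E, fun _ => i, rfl, rfl, fun k hk => by omega, by simp⟩
  | succ n ih =>
    obtain ⟨e₀, he₀, r', hr', rfl⟩ := h
    obtain ⟨e, v, h0, hn, hk, hr⟩ := ih hr'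
    refine ⟨fun k => Nat.casesOn k e₀ e, fun k => Nat.casesOn k i v, rfl, hn, ?_, ?_⟩
    · intro k hkn
      cases k with
      | zero => exact ⟨he₀, h0.symm⟩
      | succ k => exact hk k (by omega)
    · rw [prod_range_succ', hr, mul_comm]
      rfl

/-- A shortest closed walk with product different from `1` passes every cylinder once. -/
lemma exists_simple [Nonempty E] (h : ∃ n i r, G.W n i i r ∧ r ≠ 1) :
    ∃ (n : ℕ) (e : ℕ → E) (v : ℕ → V), 0 < n ∧ v n = v 0 ∧
      (∀ k < n, G.src (e k) = v k ∧ G.tgt (e k) = v (k + 1)) ∧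
      (∏ k ∈ range n, G.s (e k)) ≠ 1 ∧ ∀ k < n, ∀ l < n, k ≠ l → v k ≠ v l := by
  classical
  set n := Nat.find h with hn
  obtain ⟨i, r, hW, hr⟩ := Nat.find_spec h
  rw [← hn] at hW
  obtain ⟨e, v, h0, h1, hk, hp⟩ := exists_fun hW
  have hpos : 0 < n := by
    rcases Nat.eq_zero_or_pos n with h' | h'
    · rw [h'] at hW; exact absurd hW.2 hr
    · exact h'
  have key : ∀ k l, k < l → l < n → v k ≠ v l := by
    intro k l hkl hln hv
    have w1 := W_fun hk k 0 (by omega)
    have w2 := W_fun hk (l - k) k (by omega)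
    have w3 := W_fun hk (n - l) l (by omega)
    rw [show 0 + k = k by ring] at w1
    rw [show k + (l - k) = l by omega, ← hv] at w2
    rw [show l + (n - l) = n by omega, h1, ← hv] at w3
    rw [h0] at w1
    have hprod : r = (∏ j ∈ range k, G.s (e (0 + j))) * (∏ j ∈ range (l - k), G.s (e (k + j))) *
        ∏ j ∈ range (n - l), G.s (e (l + j)) := by
      rw [hp, ← prod_range_mul_prod_Ico _ (show l ≤ n by omega),
        ← prod_range_mul_prod_Ico _ (show k ≤ l by omega), prod_Ico_eq_prod_range _ k l,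
        prod_Ico_eq_prod_range _ l n]
      simp
    by_cases hr2 : (∏ j ∈ range (l - k), G.s (e (k + j))) = 1
    · have w4 := W_trans w1 w3
      rw [hr2, mul_one] at hprod
      rw [← hprod] at w4
      exact Nat.find_min h (m := k + (n - l)) (by omega) ⟨i, r, w4, hr⟩
    · exact Nat.find_min h (m := l - k) (by omega) ⟨v k, _, w2, hr2⟩
  refine ⟨n, e, v, hpos, by rw [h1, h0], hk, by rw [← hp]; exact hr, fun k hkn l hln hne => ?_⟩
  rcases lt_or_gt_of_ne hne with h' | h'
  · exact key k l h' hln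
  · exact (key l k h' hkn).symm

variable [Fintype E] [DecidableEq V]

lemma Closed.a_pos (h : G.Closed) (e : E) : 0 < G.a e := (h (G.src e)).1.1 e rfl

lemma Closed.b_pos (h : G.Closed) (e : E) : 0 < G.b e := (h (G.tgt e)).2.1 e rfl

lemma Closed.s_pos (h : G.Closed) (e : E) : 0 < G.s e := div_pos (h.b_pos e) (h.a_pos e)

lemma W_pos (h : G.Closed) {n : ℕ} {i j : V} {r : ℝ} (hW : G.W n i j r) : 0 < r := by
  induction n generalizing i r with
  | zero => rw [hW.2]; norm_num
  | succ n ih =>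
    obtain ⟨e, -, r', hr', rfl⟩ := hW
    exact mul_pos (h.s_pos e) (ih hr')

variable [Fintype V]

/-- If all closed walks have product `1` then the surface is a translation surface. -/
lemma isTranslation [Nonempty V] (h : G.Closed) (hc : G.Connected)
    (h1 : ∀ n i r, G.W n i i r → r = 1) : G.IsTranslation := by
  classical
  set R : V → Set V := fun i => {j | ∃ n r, G.W n i j r} with hR
  obtain ⟨i₀, hi₀⟩ := Finite.exists_min fun i => (R i).ncard
  set C := R i₀ with hC
  have hself : i₀ ∈ C := ⟨0, 1, rfl, rfl⟩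
  have hback : ∀ j ∈ C, ∃ n r, G.W n j i₀ r := by
    rintro j ⟨n, r, hj⟩
    have hsub : R j ⊆ C := by
      rintro k ⟨m, t, hk⟩
      exact ⟨n + m, r * t, W_trans hj hk⟩
    have := Set.eq_of_subset_of_ncard_le hsub (hi₀ j) (Set.toFinite _)
    rw [← this] at hself
    exact hself
  have huniq : ∀ j n m r t, G.W n i₀ j r → G.W m i₀ j t → r = t := by
    intro j n m r t hr ht
    obtain ⟨k, u, hu⟩ := hback j ⟨n, r, hr⟩
    have e1 := h1 _ _ _ (W_trans hr hu)
    have e2 := h1 _ _ _ (W_trans ht hu)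
    exact mul_right_cancel₀ (W_pos h hu).ne' (e1.trans e2.symm)
  have hρ' : ∀ j, ∃ ρ : ℝ, j ∈ C → ∃ n, G.W n i₀ j ρ := by
    intro j
    by_cases hj : j ∈ C
    · obtain ⟨n, r, hr⟩ := hj
      exact ⟨r, fun _ => ⟨n, hr⟩⟩
    · exact ⟨0, fun h => absurd h hj⟩
  choose ρ hρ using hρ'
  have hstep : ∀ e, G.src e ∈ C → G.tgt e ∈ C ∧ ρ (G.tgt e) = ρ (G.src e) * G.s e := by
    intro e he
    obtain ⟨n, hn⟩ := hρ _ he
    have w := W_trans hn (W_one e)
    have ht : G.tgt e ∈ C := ⟨_, _, w⟩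
    obtain ⟨m, hm⟩ := hρ _ ht
    exact ⟨ht, huniq _ _ _ _ _ hm w⟩
  have hρpos : ∀ j ∈ C, 0 < ρ j := fun j hj => W_pos h (hρ j hj).choose_spec
  have hcc : ∀ e, G.src e ∈ C → (ρ (G.src e))⁻¹ * G.a e = (ρ (G.tgt e))⁻¹ * G.b e := by
    intro e he
    have h2 := (hstep e he).2
    have h3 := hρpos _ he
    have ha := h.a_pos e
    have hb := h.b_pos e
    rw [h2, Gluing.s]
    field_simp
  -- sums
  have key : ∀ (f : E → V) (w : E → ℝ), (∀ i, (∑ e with f e = i, w e) = 1) →
      ∑ e with f e ∈ C, (ρ (f e))⁻¹ * w e = ∑ j with j ∈ C, (ρ j)⁻¹ := by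
    intro f w hw
    rw [← Finset.sum_fiberwise_of_maps_to (s := univ.filter fun e => f e ∈ C)
      (t := univ.filter fun j => j ∈ C) (g := f) (by intro x hx; simpa using hx)]
    refine sum_congr rfl fun j hj => ?_
    have hj' : j ∈ C := by simpa using hj
    have e1 : (univ.filter fun e => f e ∈ C).filter (fun e => f e = j) =
        univ.filter fun e => f e = j := by
      ext e
      simp only [mem_filter, mem_univ, true_and, and_iff_right_iff_imp]
      rintro rfl
      exact hj'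
    rw [e1]
    have e2 : ∑ e with f e = j, (ρ (f e))⁻¹ * w e = ∑ e with f e = j, (ρ j)⁻¹ * w e := by
      refine sum_congr rfl fun e he => ?_
      rw [(mem_filter.mp he).2]
    rw [e2, ← mul_sum, hw, mul_one]
  have k1 := key G.src G.a fun i => (h i).1.2.1
  have k2 := key G.tgt G.b fun i => (h i).2.2.1
  have k3 : ∑ e with G.src e ∈ C, (ρ (G.src e))⁻¹ * G.a e =
      ∑ e with G.src e ∈ C, (ρ (G.tgt e))⁻¹ * G.b e :=
    sum_congr rfl fun e he => hcc e (mem_filter.mp he).2
  have hiff : ∀ e, G.src e ∈ C ↔ G.tgt e ∈ C := by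
    intro e
    refine ⟨fun he => (hstep e he).1, fun he => ?_⟩
    by_contra hne
    have hlt : ∑ e with G.src e ∈ C, (ρ (G.tgt e))⁻¹ * G.b e <
        ∑ e with G.tgt e ∈ C, (ρ (G.tgt e))⁻¹ * G.b e := by
      refine sum_lt_sum_of_subset (i := e) ?_ (by simpa using he) (by simpa using hne) ?_ ?_
      · intro e' he'
        simp only [mem_filter, mem_univ, true_and] at he' ⊢
        exact (hstep e' he').1
      · exact mul_pos (inv_pos.mpr (hρpos _ he)) (h.b_pos e)
      · intro e' he' _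
        simp only [mem_filter, mem_univ, true_and] at he'
        exact (mul_pos (inv_pos.mpr (hρpos _ he')) (h.b_pos e')).le
    rw [← k3, k1, k2] at hlt
    exact lt_irrefl _ hlt
  have huniv := hc C ⟨i₀, hself⟩ hiff
  exact ⟨fun i => (ρ i)⁻¹, fun i => inv_pos.mpr (hρpos i (by rw [huniv]; trivial)),
    fun e => hcc e (by rw [huniv]; trivial)⟩

end Gluing

end Pool.Agent.FCY
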