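import Pool.Agent.FCY.Kron
import Pool.Agent.FCY.Walk

/-!
# Hyperbolic closed geodesics on affine surfaces made of flat cylinders
-/

namespace Pool.Agent.FCY

open Finset Filter Topology

variable {V E : Type}

namespace Gluing

variable {G : Gluing V E}

/-- `D δ k`: the inhomogeneous part of the affine recursion `u (k+1) = s_k (u k + δ_k)`. -/
noncomputable def D (G : Gluing V E) (e : ℕ → E) (δ : V → ℝ) : ℕ → ℝ
  | 0 => 0
  | k + 1 => G.s (e k) * (G.D e δ k + δ (G.src (e k)))

lemma D_cont [Fintype V] (e : ℕ → E) (k : ℕ) : Continuous fun δ : V → ℝ => G.D e δ k := by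
  induction k with
  | zero => exact continuous_const
  | succ k ih =>
    exact continuous_const.mul (ih.add (continuous_apply _))

lemma D_zero (e : ℕ → E) (k : ℕ) : G.D e 0 k = 0 := by
  induction k with
  | zero => rfl
  | succ k ih => simp [D, ih]

/-- Main step: a simple cycle and a flow time which nearly joins the midpoints. -/
lemma hasHyperbolic_of_cycle [Fintype V] [Fintype E] [DecidableEq V] (h : G.Closed) {n : ℕ}
    {e : ℕ → E} {v : ℕ → V} (hn : 0 < n) (hv : v n = v 0)
    (hk : ∀ k < n, G.src (e k) = v k ∧ G.tgt (e k) = v (k + 1))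
    (hp : (∏ k ∈ range n, G.s (e k)) ≠ 1) (hs : ∀ k < n, ∀ l < n, k ≠ l → v k ≠ v l) :
    ∃ ε : ℝ, 0 < ε ∧ ∃ X : V → ℝ, ∀ m : V → ℝ, ∀ τ : ℝ,
      (∀ k < n, ∃ z : ℤ, |τ * m (v k) - X (v k) - z| < ε) → G.HasHyperbolic m := by
  classical
  -- periodic extension
  set e' : ℕ → E := fun k => e (k % n) with he'
  have he'k : ∀ k < n, e' k = e k := fun k hk => by simp only [he', Nat.mod_eq_of_lt hk]
  have he'n : ∀ k, e' (k + n) = e' k := fun k => by simp only [he', Nat.add_mod_right]
  have hadj : ∀ k, G.tgt (e' k) = G.src (e' (k + 1)) := by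
    intro k
    simp only [he']
    have h1 := Nat.mod_lt k hn
    rw [(hk _ h1).2]
    by_cases h2 : k % n + 1 < n
    · have : (k + 1) % n = k % n + 1 := by
        rw [Nat.add_mod, Nat.mod_eq_of_lt (show 1 < n by omega), Nat.mod_eq_of_lt h2]
      rw [this, (hk _ h2).1]
    · have h3 : k % n + 1 = n := by omega
      have : (k + 1) % n = 0 := by
        rw [← Nat.mod_add_mod, h3, Nat.mod_self]
      rw [this, (hk 0 hn).1, h3, hv]
  set P : ℝ := ∏ k ∈ range n, G.s (e k) with hP
  have hP1 : 1 - P ≠ 0 := fun h0 => hp (by linarith)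
  -- solution of the cyclic system
  set u : (V → ℝ) → ℕ → ℝ := fun δ k =>
    (∏ j ∈ range k, G.s (e' j)) * (G.D e' δ n / (1 - P)) + G.D e' δ k with hu
  have hu_step : ∀ δ k, u δ (k + 1) = G.s (e' k) * (u δ k + δ (G.src (e' k))) := by
    intro δ k
    simp only [hu, prod_range_succ, D]
    ring
  have hPe : ∏ j ∈ range n, G.s (e' j) = P :=
    prod_congr rfl fun k hk => by rw [he'k k (mem_range.mp hk)]
  have hu_n : ∀ δ, u δ n = u δ 0 := by
    intro δ
    simp only [hu, hPe, range_zero, prod_empty, one_mul, D]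
    field_simp
    ring
  have hu_cont : ∀ k, Continuous fun δ => u δ k := fun k =>
    (continuous_const.mul ((D_cont e' n).div_const _)).add (D_cont e' k)
  have hu_zero : ∀ k, u 0 k = 0 := fun k => by simp [hu, D_zero]
  have hev : ∀ᶠ δ : V → ℝ in 𝓝 0, ∀ k ∈ range n, |u δ k + δ (G.src (e' k))| < G.a (e' k) / 2 := by
    rw [Filter.eventually_all_finset]
    intro k _
    have hc : Continuous fun δ : V → ℝ => |u δ k + δ (G.src (e' k))| :=
      ((hu_cont k).add (continuous_apply _)).abs
    have h0 : |u 0 k + (0 : V → ℝ) (G.src (e' k))| < G.a (e' k) / 2 := by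
      rw [hu_zero]
      simp only [Pi.zero_apply, add_zero, abs_zero]
      exact half_pos (h.a_pos _)
    exact hc.continuousAt.eventually (gt_mem_nhds h0)
  obtain ⟨ε, hε, hball⟩ := Metric.eventually_nhds_iff.mp hev
  refine ⟨ε, hε, ?_⟩
  -- entry points and targets
  set w : ℕ → ℝ := fun k => G.q (e' (k + n - 1)) + G.b (e' (k + n - 1)) / 2 with hw
  set X : V → ℝ := fun i => ∑ k ∈ range n, if v k = i then G.p (e' k) + G.a (e' k) / 2 - w k else 0
    with hX
  have hXv : ∀ k < n, X (v k) = G.p (e' k) + G.a (e' k) / 2 - w k := by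
    intro k hkn
    simp only [hX]
    rw [sum_eq_single k]
    · rw [if_pos rfl]
    · intro l hl hlk
      rw [if_neg (hs l (mem_range.mp hl) k hkn hlk)]
    · intro hk'
      exact absurd (mem_range.mpr hkn) hk'
  refine ⟨X, fun m τ hτ => ?_⟩
  have hτ' : ∀ i, ∃ z : ℤ, (∃ k < n, v k = i) → |τ * m i - X i - z| < ε := by
    intro i
    by_cases hi : ∃ k < n, v k = i
    · obtain ⟨k, hkn, rfl⟩ := hi
      obtain ⟨z, hz⟩ := hτ k hkn
      exact ⟨z, fun _ => hz⟩
    · exact ⟨0, fun h => absurd h hi⟩
  choose z hz using hτ'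
  set δ : V → ℝ := fun i => if ∃ k < n, v k = i then τ * m i - X i - z i else 0 with hδ
  have hd : dist δ 0 < ε := by
    rw [dist_pi_lt_iff hε]
    intro i
    rw [Real.dist_eq, Pi.zero_apply, sub_zero]
    simp only [hδ]
    split_ifs with hi
    · exact hz i hi
    · simpa using hε
  have hsmall := hball hd
  set x : ℕ → ℝ := fun k => w (k % n) + u δ (k % n) with hx
  have hxn : ∀ k, x (k + n) = x k := fun k => by simp only [hx, Nat.add_mod_right]
  have hwn : ∀ k, w (k % n) = w k := by
    intro k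
    simp only [hw, he']
    have : (k % n + n - 1) % n = (k + n - 1) % n := by
      rw [Nat.add_sub_assoc (by omega), Nat.add_sub_assoc (by omega), Nat.mod_add_mod]
    rw [this]
  have hsrc : ∀ k, G.src (e' k) = v (k % n) := fun k => (hk _ (Nat.mod_lt k hn)).1
  refine ⟨τ, n, e', x, hn, fun k => ⟨he'n k, hxn k⟩, hadj, fun k => ?_, ?_, ?_⟩
  · -- the crossing
    have hkn := Nat.mod_lt k hn
    have h1 := hsmall (k % n) (mem_range.mpr hkn)
    have h2 := hXv (k % n) hkn
    have hee : e' (k % n) = e' k := by simp only [he', Nat.mod_mod]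
    rw [hee] at h1 h2
    have hxk : x k = w (k % n) + u δ (k % n) := rfl
    have hsum : x k + τ * m (G.src (e' k)) + ((-z (G.src (e' k)) : ℤ) : ℝ) =
        G.p (e' k) + G.a (e' k) / 2 + (u δ (k % n) + δ (G.src (e' k))) := by
      have h3 : δ (G.src (e' k)) = τ * m (G.src (e' k)) - X (G.src (e' k)) - z (G.src (e' k)) :=
        if_pos ⟨k % n, hkn, (hsrc k).symm⟩
      have h4 : X (G.src (e' k)) = G.p (e' k) + G.a (e' k) / 2 - w (k % n) := by rw [hsrc k, h2]
      rw [hxk, h3, h4]
      push_cast
      ring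
    rw [abs_lt] at h1
    refine ⟨-z (G.src (e' k)), ?_, ?_, ?_⟩
    · rw [hsum]; linarith [h1.1]
    · rw [hsum]; linarith [h1.2]
    · rw [hsum]
      have h5 : x (k + 1) = w (k + 1) + u δ (k % n + 1) := by
        have : x (k + 1) = w ((k + 1) % n) + u δ ((k + 1) % n) := rfl
        rw [this, hwn]
        congr 1
        by_cases h6 : k % n + 1 < n
        · have : (k + 1) % n = k % n + 1 := by
            rw [Nat.add_mod, Nat.mod_eq_of_lt (show 1 < n by omega), Nat.mod_eq_of_lt h6]
          rw [this]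
        · have h7 : k % n + 1 = n := by omega
          have : (k + 1) % n = 0 := by rw [← Nat.mod_add_mod, h7, Nat.mod_self]
          rw [this, h7, hu_n]
      have h8 : w (k + 1) = G.q (e' k) + G.b (e' k) / 2 := by
        simp only [hw]
        rw [show k + 1 + n - 1 = k + n by omega, he'n]
      rw [h5, h8, hu_step, hee]
      have ha := (h.a_pos (e' k)).ne'
      rw [Gluing.s]
      field_simp
      ring
  · intro k hk' l hl hne heq
    rw [hsrc, hsrc, Nat.mod_eq_of_lt hk', Nat.mod_eq_of_lt hl] at heq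
    exact absurd heq (hs k hk' l hl hne)
  · have : ∏ k ∈ range n, G.b (e' k) / G.a (e' k) = P := hPe
    rw [this]
    exact hp

end Gluing

namespace Gluing

variable {G : Gluing V E}

lemma exists_cycle [Fintype V] [DecidableEq V] [Nonempty V] [Fintype E] (h : G.Closed)
    (hc : G.Connected) (ht : ¬ G.IsTranslation) : ∃ n e, G.IsCycle n e := by
  have hE : Nonempty E := by
    by_contra hE
    rw [not_nonempty_iff] at hE
    obtain ⟨i⟩ := ‹Nonempty V›
    have := (h i).1.2.1
    simp at this
  have h1 : ∃ n i r, G.W n i i r ∧ r ≠ 1 := by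
    by_contra hcon
    push Not at hcon
    exact ht (Gluing.isTranslation h hc fun n i r => hcon n i r)
  obtain ⟨n, e, v, hn, hv, hk, hp, hs⟩ := Gluing.exists_simple h1
  refine ⟨n, fun k => e (k % n), hn, fun k => by simp only [Nat.add_mod_right], fun k => ?_,
    ?_, ?_⟩
  · have h1 := Nat.mod_lt k hn
    dsimp only
    rw [(hk _ h1).2]
    by_cases h2 : k % n + 1 < n
    · have : (k + 1) % n = k % n + 1 := by
        rw [Nat.add_mod, Nat.mod_eq_of_lt (show 1 < n by omega), Nat.mod_eq_of_lt h2]
      rw [this, (hk _ h2).1]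
    · have h3 : k % n + 1 = n := by omega
      have : (k + 1) % n = 0 := by
        rw [← Nat.mod_add_mod, h3, Nat.mod_self]
      rw [this, (hk 0 hn).1, h3, hv]
  · intro k hk' l hl hne
    dsimp only
    rw [Nat.mod_eq_of_lt hk', Nat.mod_eq_of_lt hl, (hk k hk').1, (hk l hl).1]
    exact hs k hk' l hl hne
  · intro h0
    apply hp
    rw [← h0]
    exact prod_congr rfl fun k hk => by
      dsimp only
      rw [Nat.mod_eq_of_lt (mem_range.mp hk)]; rfl

/-- One cycle: only finitely many relations among the moduli of its cylinders matter. -/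
lemma cycle_bound [Fintype V] [DecidableEq V] [Fintype E] (h : G.Closed) {n : ℕ} {e : ℕ → E}
    (hcy : G.IsCycle n e) : ∃ N : ℕ, ∀ m : V → ℝ,
      NoRelation N (Set.range fun k => G.src (e k)) m → G.HasHyperbolic m := by
  classical
  obtain ⟨hn, hper, hadj, hs, hp⟩ := hcy
  obtain ⟨ε, hε, X, hX⟩ := hasHyperbolic_of_cycle (v := fun k => G.src (e k)) h hn
    (by have := hper 0; rw [zero_add] at this; simp only [this])
    (fun k _ => ⟨rfl, hadj k⟩) hp hs
  set S : Set V := Set.range fun k => G.src (e k) with hS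
  obtain ⟨N, hN⟩ := kron S hε
  refine ⟨N, fun m hm => ?_⟩
  have hrel : NoRel N fun i : S => m i := by
    intro c hc hcN h0
    refine hm (fun i => if hi : i ∈ S then c ⟨i, hi⟩ else 0) ?_ ?_ ?_ ?_
    · intro h1
      apply hc
      funext i
      have := congrFun h1 i
      simpa using this
    · intro i hi
      by_contra hi'
      exact hi (dif_neg hi')
    · intro i
      split_ifs with hi
      · exact hcN _
      · simp
    · rw [← h0, ← Finset.sum_subset (s₁ := univ.filter fun i => i ∈ S) (filter_subset _ _)]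
      · rw [Finset.sum_subtype (univ.filter fun i => i ∈ S) (p := fun i => i ∈ S)
          (by intro x; simp)]
        refine sum_congr rfl fun i _ => ?_
        rw [dif_pos i.2]
      · intro i _ hi
        have hi' : i ∉ S := by simpa using hi
        rw [dif_neg hi']
        simp
  obtain ⟨τ, hτ⟩ := hN _ (fun i => X i) hrel
  refine hX m τ fun k _ => ?_
  exact hτ ⟨G.src (e k), ⟨k, rfl⟩⟩

/-- There are only finitely many simple cycles. -/
lemma finite_cycles [Fintype V] [Finite E] :
    {c : ℕ × (ℕ → E) | G.IsCycle c.1 c.2}.Finite := by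
  classical
  have hle : ∀ n e, G.IsCycle n e → n ≤ Fintype.card V := by
    intro n e h
    have hinj : Function.Injective fun k : Fin n => G.src (e k) := by
      intro k l hkl
      by_contra hne
      exact h.2.2.2.1 k k.2 l l.2 (fun h' => hne (Fin.ext h')) hkl
    simpa using Fintype.card_le_of_injective _ hinj
  set F : ℕ × (ℕ → E) → (Fin (Fintype.card V + 1)) × (Fin (Fintype.card V + 1) → E) :=
    fun c => (Fin.ofNat _ c.1, fun k => c.2 k) with hF
  refine Set.Finite.of_injOn (f := F) (t := Set.univ) (fun _ _ => Set.mem_univ _) ?_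
    Set.finite_univ
  rintro ⟨n, e⟩ h ⟨n', e'⟩ h' heq
  have hn := hle n e h
  have hn' := hle n' e' h'
  simp only [hF, Prod.mk.injEq] at heq
  have e1 : n = n' := by
    have := congrArg Fin.val heq.1
    simpa [Fin.ofNat, Nat.mod_eq_of_lt (Nat.lt_succ_of_le hn),
      Nat.mod_eq_of_lt (Nat.lt_succ_of_le hn')] using this
  subst e1
  have hper : ∀ (f : ℕ → E), G.IsCycle n f → ∀ k, f k = f (k % n) := by
    intro f hf k
    conv_lhs => rw [← Nat.mod_add_div k n]
    generalize k / n = d
    induction d with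
    | zero => simp
    | succ d ih => rw [Nat.mul_succ, ← add_assoc, hf.2.1, ih]
  have e2 : e = e' := by
    funext k
    rw [hper e h k, hper e' h' k]
    have hk : k % n < n := Nat.mod_lt k h.1
    exact congrFun heq.2 ⟨k % n, by omega⟩
  rw [e2]

lemma NoRelation_mono [Fintype V] {N N' : ℕ} (h : N ≤ N') {S S' : Set V} (hS : S ⊆ S')
    {m : V → ℝ} (hm : NoRelation N' S' m) : NoRelation N S m :=
  fun c hc h1 h2 => hm c hc (fun i hi => hS (h1 i hi))
    fun i => (h2 i).trans (by exact_mod_cast h)

end Gluing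

/-- Uniform bound. -/
theorem bound [Fintype V] [DecidableEq V] [Fintype E] (G : Gluing V E) (h : G.Closed) :
    ∃ N : ℕ, ∀ n e, G.IsCycle n e → ∀ m : V → ℝ,
      NoRelation N (Set.range fun k => G.src (e k)) m → G.HasHyperbolic m := by
  classical
  have hex : ∀ c : ℕ × (ℕ → E), ∃ N : ℕ, G.IsCycle c.1 c.2 → ∀ m : V → ℝ,
      NoRelation N (Set.range fun k => G.src (c.2 k)) m → G.HasHyperbolic m := by
    intro c
    by_cases hc : G.IsCycle c.1 c.2
    · obtain ⟨N, hN⟩ := Gluing.cycle_bound h hc
      exact ⟨N, fun _ => hN⟩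
    · exact ⟨0, fun h => absurd h hc⟩
  choose N hN using hex
  refine ⟨(Gluing.finite_cycles (G := G)).toFinset.sup N, fun n e hcy m hm => ?_⟩
  refine hN (n, e) hcy m (Gluing.NoRelation_mono ?_ subset_rfl hm)
  exact Finset.le_sup (f := N) ((Gluing.finite_cycles (G := G)).mem_toFinset.mpr hcy)

/-- One or two cylinders. -/
theorem two [Fintype V] [DecidableEq V] [Fintype E] (G : Gluing V E) {N : ℕ} {e : ℕ → E}
    (hN : ∀ m : V → ℝ, NoRelation N (Set.range fun k => G.src (e k)) m → G.HasHyperbolic m)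
    (i j : V) (hij : ∀ k, k = i ∨ k = j) :
    {r : ℝ | ∃ m : V → ℝ, (∀ k, 0 < m k) ∧ r = m i / m j ∧ ¬ G.HasHyperbolic m}.Finite := by
  classical
  have hfin : (Set.Icc (-(N:ℤ)) N ×ˢ Set.Icc (-(N:ℤ)) N).Finite :=
    (Set.finite_Icc _ _).prod (Set.finite_Icc _ _)
  refine (hfin.image fun c : ℤ × ℤ => (-(c.2 : ℝ) / c.1)).subset ?_
  rintro r ⟨m, hm, rfl, hno⟩
  have h1 : ¬ NoRelation N (Set.range fun k => G.src (e k)) m := fun h => hno (hN m h)
  unfold NoRelation at h1
  push Not at h1
  obtain ⟨c, hc0, -, hcN, hsum⟩ := h1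
  by_cases hne : i = j
  · -- a single cylinder: no relation
    exfalso
    subst hne
    have huniv : (Finset.univ : Finset V) = {i} := by
      ext k
      simpa using hij k
    rw [huniv, sum_singleton] at hsum
    have : (c i : ℝ) = 0 := (mul_eq_zero.mp hsum).resolve_right (hm i).ne'
    apply hc0
    funext k
    have hk : k = i := by simpa using hij k
    rw [hk]
    exact_mod_cast this
  · have huniv : (Finset.univ : Finset V) = {i, j} := by
      ext k
      simpa using hij k
    rw [huniv, sum_pair hne] at hsum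
    have hci : c i ≠ 0 := by
      intro h0
      rw [h0] at hsum
      have h2 : (c j : ℝ) = 0 := by
        have : (c j : ℝ) * m j = 0 := by push_cast at hsum; linarith
        exact (mul_eq_zero.mp this).resolve_right (hm j).ne'
      apply hc0
      funext k
      rcases hij k with rfl | rfl
      · exact h0
      · exact_mod_cast h2
    refine ⟨(c i, c j), ⟨?_, ?_⟩, ?_⟩
    · exact abs_le.mp (hcN i)
    · exact abs_le.mp (hcN j)
    · have h3 : (c i : ℝ) ≠ 0 := by exact_mod_cast hci
      have h4 := (hm j).ne'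
      dsimp only
      rw [div_eq_div_iff h3 h4]
      linarith

end Pool.Agent.FCY
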